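import Mathlib
import Pool.Agent.H6.SA8

set_option autoImplicit false

namespace Pool.Agent.Results.MP_a5725d_an.SAT

open Filter Topology MeasureTheory

/-- The `k`-th Taylor coefficient of `f` at the origin. -/
noncomputable def coeff (f : ℂ → ℂ) (k : ℕ) : ℂ := iteratedDeriv k f 0 / (k.factorial : ℂ)

/-- `f` belongs to the Hardy space `H²`: it is analytic in the unit disc and its Taylor coefficients are
square summable. The norm of `H²` is the `ℓ²` norm of the coefficient sequence. -/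
def IsH2 (f : ℂ → ℂ) : Prop :=
  DifferentiableOn ℂ f (Metric.ball 0 1) ∧ Summable fun k : ℕ => ‖coeff f k‖ ^ 2

/-- The `k`-th Taylor coefficient of `M_z^{*n} C_φ M_z^n f`: here `C_φ M_z^n f` is the function
`z ↦ φ(z)^n f(φ(z))`, and `M_z^{*n}` is the `n`-fold backward shift of Taylor coefficients. -/
noncomputable def compress (φ : ℂ → ℂ) (n : ℕ) (f : ℂ → ℂ) (k : ℕ) : ℂ :=
  coeff (fun z => φ z ^ n * f (φ z)) (n + k)

/-- `C_φ` is strongly asymptotically Toeplitz: for every `f ∈ H²` the functions `M_z^{*n} C_φ M_z^n f`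
converge, in the norm of `H²`, to some `g ∈ H²`. -/
def IsSAT (φ : ℂ → ℂ) : Prop :=
  ∀ f, IsH2 f → ∃ g, IsH2 g ∧
    (∀ n : ℕ, Summable fun k : ℕ => ‖compress φ n f k - coeff g k‖ ^ 2) ∧
    Tendsto (fun n : ℕ => ∑' k : ℕ, ‖compress φ n f k - coeff g k‖ ^ 2) atTop (𝓝 0)

/-- `φ` has a radial limit at `ζ`, of modulus one. -/
def UnimodularAt (φ : ℂ → ℂ) (ζ : ℂ) : Prop :=
  ∃ w : ℂ, ‖w‖ = 1 ∧ Tendsto (fun r : ℝ => φ ((r : ℂ) * ζ)) (𝓝[<] 1) (𝓝 w)

/-- The modulus `|φ'(ζ)| ∈ [0, ∞]` of the angular derivative at the boundary point `ζ`, in the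
Julia–Caratheodory form `liminf_{z → ζ, |z| < 1} (1 - |φ z|) / (1 - |z|)`. -/
noncomputable def angDeriv (φ : ℂ → ℂ) (ζ : ℂ) : ENNReal :=
  liminf (fun z : ℂ => ENNReal.ofReal ((1 - ‖φ z‖) / (1 - ‖z‖))) (𝓝[Metric.ball 0 1] ζ)

/-- Characterisation of the strongly asymptotically Toeplitz composition operators on `H²`.
For every analytic selfmap `φ` of the unit disc, `C_φ` maps `H²` to itself, and `C_φ` is strongly
asymptotically Toeplitz if and only if either `φ` is the identity, or at almost every point of the unit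
circle where the radial limit of `φ` has modulus one, the angular derivative of `φ` has modulus less
than one. -/
theorem result (φ : ℂ → ℂ) (hd : DifferentiableOn ℂ φ (Metric.ball (0 : ℂ) 1))
    (hm : Set.MapsTo φ (Metric.ball (0 : ℂ) 1) (Metric.ball (0 : ℂ) 1)) :
    (∀ f, IsH2 f → IsH2 (fun z => f (φ z))) ∧
    (IsSAT φ ↔
      ((∀ z ∈ Metric.ball (0 : ℂ) 1, φ z = z) ∨
        ∀ᵐ θ ∂(volume.restrict (Set.Ioo (0 : ℝ) (2 * Real.pi))),
          UnimodularAt φ (circleMap 0 1 θ) → angDeriv φ (circleMap 0 1 θ) < 1)) :=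
  Pool.Agent.H6.NS.final hd hm

end Pool.Agent.Results.MP_a5725d_an.SAT
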